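import Mathlib

set_option autoImplicit false

/-!
# Part PRIMES
-/

namespace Pool.Agent.N353.TB

open Finset

theorem card_odd_le (R : Finset ℕ) (m : ℕ) (hR : ∀ q ∈ R, q.Prime ∧ q % 2 = 1)
    (hm : ∀ q ∈ R, q ≤ m) : R.card ≤ (m - 1) / 2 := by
  have h1 : R.card ≤ (Icc 1 ((m - 1) / 2)).card := by
    apply card_le_card_of_injOn (fun q => (q - 1) / 2)
    · intro q hq
      have h2 := hR q hq
      have h3 := hm q hq
      have h4 := h2.1.two_le
      have h5 := h2.2
      simp only [coe_Icc, Set.mem_Icc]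
      omega
    · intro q hq q' hq' h
      have h2 := (hR q hq).2
      have h3 := (hR q' hq').2
      simp only at h
      omega
  simpa using h1

theorem prime_box (C : ℕ) (R : Finset ℕ) (hR : ∀ p ∈ R, p.Prime ∧ p % 2 = 1) (h4 : 4 ≤ R.card)
    (hC : ∀ T ⊆ R, T.card = 4 → 16 * C < ∏ p ∈ T, (p - 1)) :
    C * (2 ^ R.card * (R.card - 1).factorial) < 6 * ∏ p ∈ R, (p - 1) := by
  induction R using Finset.induction_on_max with
  | empty => simp at h4
  | insert p S hp ih =>
    have hpS : p ∉ S := fun h => lt_irrefl p (hp p h)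
    rw [card_insert_of_notMem hpS] at h4
    rw [card_insert_of_notMem hpS, prod_insert hpS]
    by_cases h3 : S.card = 3
    · have h5 := hC (insert p S) (Subset.refl _) (by rw [card_insert_of_notMem hpS, h3])
      rw [prod_insert hpS] at h5
      rw [h3]
      have h6 : C * (2 ^ (3 + 1) * (3 + 1 - 1).factorial) = 6 * (16 * C) := by
        have : (3 + 1 - 1).factorial = 6 := rfl
        rw [this]
        ring
      rw [h6]
      omega
    · have hS4 : 4 ≤ S.card := by omega
      have h5 := ih (fun q hq => hR q (mem_insert_of_mem hq)) hS4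
        (fun T hT => hC T (hT.trans (subset_insert p S)))
      have h6 := card_odd_le (insert p S) p hR (fun q hq => by
        rcases mem_insert.1 hq with rfl | hq
        · exact le_rfl
        · exact (hp q hq).le)
      rw [card_insert_of_notMem hpS] at h6
      have h7 : 2 * S.card ≤ p - 1 := by omega
      have h8 : 0 < p - 1 := by omega
      have h9 : (S.card + 1 - 1).factorial = S.card * (S.card - 1).factorial := by
        rw [Nat.add_sub_cancel]
        exact (Nat.mul_factorial_pred (by omega)).symm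
      calc C * (2 ^ (S.card + 1) * (S.card + 1 - 1).factorial) =
            (C * (2 ^ S.card * (S.card - 1).factorial)) * (2 * S.card) := by
              rw [h9, pow_succ]
              ring
        _ ≤ (C * (2 ^ S.card * (S.card - 1).factorial)) * (p - 1) := Nat.mul_le_mul_left _ h7
        _ < (6 * ∏ p ∈ S, (p - 1)) * (p - 1) := Nat.mul_lt_mul_of_pos_right h5 h8
        _ = 6 * ((p - 1) * ∏ x ∈ S, (x - 1)) := by ring

/-- a set of `k` odd primes which is not in `s` has an element outside `s` -/
theorem exists_big (T s : Finset ℕ) (h : s.card < T.card) : ∃ p ∈ T, p ∉ s := by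
  by_contra hcon
  push Not at hcon
  exact absurd (card_le_card (fun p hp => hcon p hp)) (not_le_of_gt h)

theorem prime_thirty (T : Finset ℕ) (hT : ∀ p ∈ T, p.Prime ∧ p % 2 = 1) (h4 : T.card = 4) :
    480 ≤ ∏ p ∈ T, (p - 1) := by
  obtain ⟨d, hd, hd'⟩ := exists_big T {3, 5, 7} (by rw [h4]; decide)
  have hT1 : (T.erase d).card = 3 := by rw [card_erase_of_mem hd, h4]
  obtain ⟨c, hc, hc'⟩ := exists_big (T.erase d) {3, 5} (by rw [hT1]; decide)
  have hT2 : ((T.erase d).erase c).card = 2 := by rw [card_erase_of_mem hc, hT1]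
  obtain ⟨b, hb, hb'⟩ := exists_big ((T.erase d).erase c) {3} (by rw [hT2]; decide)
  have hT3 : (((T.erase d).erase c).erase b).card = 1 := by rw [card_erase_of_mem hb, hT2]
  obtain ⟨a, ha⟩ := card_eq_one.1 hT3
  have ha' : a ∈ ((T.erase d).erase c).erase b := by rw [ha]; exact mem_singleton_self a
  have key : ∀ q ∈ T, 3 ≤ q ∧ (q ≠ 3 → 5 ≤ q) ∧ (q ≠ 3 → q ≠ 5 → 7 ≤ q) ∧
      (q ≠ 3 → q ≠ 5 → q ≠ 7 → 11 ≤ q) := by
    intro q hq
    obtain ⟨h1, h2⟩ := hT q hq
    have h3 := h1.two_le
    have h9 : q ≠ 9 := by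
      rintro rfl
      exact absurd h1 (by norm_num)
    refine ⟨by omega, by omega, by omega, by omega⟩
  have hbT := mem_of_mem_erase (mem_of_mem_erase hb)
  have hcT := mem_of_mem_erase hc
  have haT := mem_of_mem_erase (mem_of_mem_erase (mem_of_mem_erase ha'))
  simp only [mem_insert, mem_singleton, not_or] at hd' hc' hb'
  have kd := (key d hd).2.2.2 hd'.1 hd'.2.1 hd'.2.2
  have kc := (key c hcT).2.2.1 hc'.1 hc'.2
  have kb := (key b hbT).2.1 hb'
  have ka := (key a haT).1
  rw [← mul_prod_erase T _ hd, ← mul_prod_erase _ _ hc, ← mul_prod_erase _ _ hb, ha, prod_singleton]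
  calc 480 = 10 * (6 * (4 * 2)) := by norm_num
    _ ≤ (d - 1) * ((c - 1) * ((b - 1) * (a - 1))) := by
        apply Nat.mul_le_mul (by omega)
        apply Nat.mul_le_mul (by omega)
        apply Nat.mul_le_mul (by omega) (by omega)

end Pool.Agent.N353.TB
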